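import Pool.Agent.H8.ZA.Targets

/-!
# DEN: from the generic field to polynomials in the coefficients of the planes
-/

set_option autoImplicit false

open MvPolynomial

namespace Pool.Agent.H85.ZA

open Pool.Agent.H8.ZA

section

variable {k : Type} [Field k] {N : ℕ}

/-- the embedding of the polynomials in the coefficients of the planes -/
noncomputable def io (k : Type) [Field k] (N : ℕ) :
    MvPolynomial (Fin N × Fin 4) (Po k) →+* Po (GF k N) :=
  (map (algebraMap (MvPolynomial (Fin N × Fin 4) k) (GF k N))).comp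
    (commAlgEquiv k (Fin N × Fin 4) (Fin 3)).toRingEquiv.toRingHom

theorem io_apply (s : MvPolynomial (Fin N × Fin 4) (Po k)) :
    io k N s = map (algebraMap (MvPolynomial (Fin N × Fin 4) k) (GF k N))
      (commAlgEquiv k (Fin N × Fin 4) (Fin 3) s) := rfl

theorem io_C (p : Po k) : io k N (C p) = bc N p := by
  rw [io_apply, commAlgEquiv_C, map_map]
  rfl

theorem io_X (u : Fin N × Fin 4) : io k N (X u) =
    C (algebraMap (MvPolynomial (Fin N × Fin 4) k) (GF k N) (X u)) := by
  rw [io_apply, commAlgEquiv_X, map_C]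

theorem io_injective : Function.Injective (io k N) := by
  intro a b hab
  rw [io_apply, io_apply] at hab
  have h1 := map_injective _ (IsFractionRing.injective (MvPolynomial (Fin N × Fin 4) k)
    (GF k N)) hab
  exact (commAlgEquiv k (Fin N × Fin 4) (Fin 3)).injective h1

/-- the coefficients in `k[u]` -/
noncomputable def em (k : Type) [Field k] (N : ℕ) :
    MvPolynomial (Fin N × Fin 4) k →+* MvPolynomial (Fin N × Fin 4) (Po k) :=
  map C

theorem io_em (c : MvPolynomial (Fin N × Fin 4) k) :
    io k N (em k N c) = C (algebraMap _ (GF k N) c) := by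
  have h : (io k N).comp (em k N) =
      (C : GF k N →+* Po (GF k N)).comp (algebraMap (MvPolynomial (Fin N × Fin 4) k) (GF k N)) := by
    apply ringHom_ext
    · intro a
      rw [RingHom.comp_apply, RingHom.comp_apply, em, map_C, io_C, bc, map_C]
      rfl
    · intro i
      rw [RingHom.comp_apply, RingHom.comp_apply, em, map_X, io_X]
  exact DFunLike.congr_fun h c

theorem io_Lf (j : Fin N) : io k N (Lf N (fun i => (X i : Po k)) j) = lin (uu k N j) := by
  unfold Lf lin uu
  rw [map_add, map_sum, io_X]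
  congr 1
  refine Finset.sum_congr rfl fun i _ => ?_
  rw [map_mul, io_X, io_C, bc, map_X, mul_comm]

theorem em_mul_mem (B : Set (Po k)) (c : MvPolynomial (Fin N × Fin 4) k)
    (s : MvPolynomial (Fin N × Fin 4) (Po k)) (h : ∀ γ, coeff γ s ∈ Submodule.span k B) (γ) :
    coeff γ (em k N c * s) ∈ Submodule.span k B := by
  classical
  rw [coeff_mul]
  refine Submodule.sum_mem _ fun x _ => ?_
  rw [em, coeff_map, ← smul_eq_C_mul]
  exact Submodule.smul_mem _ _ (h _)

theorem clear_den (B : Set (Po k)) (S : Po (GF k N))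
    (hS : S ∈ Submodule.span (GF k N) (bc N '' B)) :
    ∃ c : MvPolynomial (Fin N × Fin 4) k, c ≠ 0 ∧ ∃ s : MvPolynomial (Fin N × Fin 4) (Po k),
      io k N s = C (algebraMap _ (GF k N) c) * S ∧ ∀ γ, coeff γ s ∈ Submodule.span k B := by
  classical
  induction hS using Submodule.span_induction with
  | mem x hx =>
    obtain ⟨b, hb, rfl⟩ := hx
    refine ⟨1, one_ne_zero, C b, ?_, fun γ => ?_⟩
    · rw [io_C, map_one, C_1, one_mul]
    · rw [coeff_C]
      split_ifs
      · exact Submodule.subset_span hb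
      · exact Submodule.zero_mem _
  | zero =>
    refine ⟨1, one_ne_zero, 0, ?_, fun γ => ?_⟩
    · rw [map_zero, mul_zero]
    · rw [coeff_zero]
      exact Submodule.zero_mem _
  | add x y _ _ hx hy =>
    obtain ⟨c, hc, s, hs, hs'⟩ := hx
    obtain ⟨d, hd, t, ht, ht'⟩ := hy
    refine ⟨c * d, mul_ne_zero hc hd, em k N d * s + em k N c * t, ?_, fun γ => ?_⟩
    · rw [map_add, map_mul, map_mul, hs, ht, io_em, io_em, map_mul, C_mul]
      ring
    · rw [coeff_add]
      exact Submodule.add_mem _ (em_mul_mem B d s hs' γ) (em_mul_mem B c t ht' γ)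
  | smul a x _ hx =>
    obtain ⟨c, hc, s, hs, hs'⟩ := hx
    obtain ⟨n, d, hd, hnd⟩ := IsFractionRing.div_surjective
      (A := MvPolynomial (Fin N × Fin 4) k) a
    have hd0 : d ≠ 0 := nonZeroDivisors.ne_zero hd
    have hd1 : algebraMap (MvPolynomial (Fin N × Fin 4) k) (GF k N) d ≠ 0 := by
      intro h0
      apply hd0
      apply IsFractionRing.injective (MvPolynomial (Fin N × Fin 4) k) (GF k N)
      rw [h0, map_zero]
    have hda : algebraMap (MvPolynomial (Fin N × Fin 4) k) (GF k N) d * a =
        algebraMap (MvPolynomial (Fin N × Fin 4) k) (GF k N) n := by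
      rw [← hnd, mul_div_cancel₀ _ hd1]
    refine ⟨c * d, mul_ne_zero hc hd0, em k N n * s, ?_, fun γ => em_mul_mem B n s hs' γ⟩
    rw [map_mul, hs, io_em, map_mul, C_mul, smul_eq_C_mul, ← hda, C_mul]
    ring

theorem mem_span_all (q : Po (GF k N)) :
    q ∈ Submodule.span (GF k N) (bc N '' (Set.univ : Set (Po k))) := by
  classical
  rw [as_sum q]
  refine Submodule.sum_mem _ fun m _ => ?_
  have h : (monomial m (coeff m q) : Po (GF k N)) =
      coeff m q • bc N (monomial m (1:k)) := by
    rw [bc, map_monomial, map_one, smul_monomial, smul_eq_mul, mul_one]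
  rw [h]
  exact Submodule.smul_mem _ _ (Submodule.subset_span ⟨_, Set.mem_univ _, rfl⟩)

end

theorem pf_DEN (hGND : T_GND) : T_DEN := by
  classical
  intro k _ N B S hS0 hS hd
  have hprod : (∏ j, lin (uu k N j)) ∣ S :=
    Fintype.prod_dvd_of_isRelPrime (fun i j hij => hGND k N i j hij) hd
  obtain ⟨S', rfl⟩ := hprod
  have hS'0 : S' ≠ 0 := right_ne_zero_of_mul hS0
  obtain ⟨c, hc, s0, hs0, hs0'⟩ := clear_den B _ hS
  obtain ⟨d, hd, s1, hs1, -⟩ := clear_den Set.univ S' (mem_span_all S')
  refine ⟨em k N d * s0, em k N c * s1, ?_, ?_, fun γ => em_mul_mem B d s0 hs0' γ⟩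
  · intro h0
    have h1 := congrArg (io k N) h0
    rw [map_mul, hs1, io_em, map_zero] at h1
    have hne : ∀ e : MvPolynomial (Fin N × Fin 4) k, e ≠ 0 →
        (C (algebraMap _ (GF k N) e) : Po (GF k N)) ≠ 0 := by
      intro e he h2
      apply he
      apply IsFractionRing.injective (MvPolynomial (Fin N × Fin 4) k) (GF k N)
      rw [map_zero]
      exact C_injective (Fin 3) _ (h2.trans C_0.symm)
    exact (mul_ne_zero (hne c hc) (mul_ne_zero (hne d hd) hS'0)) h1
  · apply io_injective
    rw [map_mul, hs0, io_em, map_mul, map_prod, map_mul, hs1, io_em]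
    simp only [io_Lf]
    ring

end Pool.Agent.H85.ZA
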