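import Pool.Agent.H8.ZA.Targets

/-!
# FRX: a point which is moved by `f` as by Frobenius
-/

set_option autoImplicit false

open MvPolynomial

namespace Pool.Agent.H85.ZA

open Pool.Agent.H8.ZA

theorem pf_FRX (hFBA : T_FBA) (hRED : T_RED) : T_FRX := by
  intro κ _ _ f f' Q b hI hQ hQ0 hf hb hb0
  by_contra hcon
  push Not at hcon
  apply hb0
  apply hFBA κ f Q b hf hb
  have hred := hRED κ f f' Q hI hQ hQ0
  have hrad : (Ideal.span (Set.range fun i => (X i ^ Q - f i : Po κ))).IsRadical :=
    (Ideal.isRadical_iff_quotient_reduced _).mpr hred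
  rw [← hrad.radical, ← vanishingIdeal_zeroLocus_eq_radical (K := κ),
    mem_vanishingIdeal_iff]
  intro x hx
  have hx' : ∀ i, eval x (f i) = x i ^ Q := by
    intro i
    have h1 := hx (X i ^ Q - f i) (Ideal.subset_span ⟨i, rfl⟩)
    rw [map_sub, map_pow, aeval_X, sub_eq_zero] at h1
    rw [h1]
    rfl
  exact hcon x hx'

end Pool.Agent.H85.ZA
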