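import Pool.Agent.H8.ZA.Targets

/-!
# ISO: restriction to a plane
-/

set_option autoImplicit false

open MvPolynomial

namespace Pool.Agent.H85.ZA

open Pool.Agent.H8.ZA

section

variable {L : Type} [Field L]

theorem rho_eq (Z : Tup L) (u : Fin 4 → L) (q : Po L) :
    rho Z u q = aeval (pl u) (aeval Z q) := by
  have h : rho Z u = (aeval (pl u) : Po L →ₐ[L] MvPolynomial (Fin 2) L).comp
      (aeval Z : Po L →ₐ[L] Po L) := by
    apply algHom_ext
    intro i
    unfold rho
    rw [AlgHom.comp_apply, aeval_X, aeval_X]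
  rw [h]
  rfl

theorem pl_zero (u : Fin 4 → L) : pl u 0 = X 0 := rfl

theorem pl_one (u : Fin 4 → L) : pl u 1 = X 1 := rfl

theorem pl_two (u : Fin 4 → L) :
    pl u 2 = C (-(u 3)⁻¹) * (C (u 0) + C (u 1) * X 0 + C (u 2) * X 1) := rfl

/-- the section of the restriction -/
noncomputable def sec (L : Type) [Field L] : MvPolynomial (Fin 2) L →ₐ[L] Po L :=
  rename Fin.castSucc

theorem sec_X0 : sec L (X 0) = X 0 := rename_X _ _

theorem sec_X1 : sec L (X 1) = X 1 := rename_X _ _

theorem sec_C (a : L) : sec L (C a) = C a := rename_C _ _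

theorem aeval_sec (u : Fin 4 → L) (p : MvPolynomial (Fin 2) L) :
    aeval (pl u) (sec L p) = p := by
  have h : (aeval (pl u) : Po L →ₐ[L] MvPolynomial (Fin 2) L).comp (sec L) =
      AlgHom.id L _ := by
    apply algHom_ext
    intro i
    rw [AlgHom.comp_apply, AlgHom.id_apply]
    fin_cases i
    · change aeval (pl u) (sec L (X 0)) = X 0
      rw [sec_X0, aeval_X, pl_zero]
    · change aeval (pl u) (sec L (X 1)) = X 1
      rw [sec_X1, aeval_X, pl_one]
  exact DFunLike.congr_fun h p

theorem lin_eq (u : Fin 4 → L) :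
    lin u = C (u 0) + (C (u 1) * X 0 + C (u 2) * X 1 + C (u 3) * X 2) := by
  unfold lin
  rw [Fin.sum_univ_three]
  rfl

theorem aeval_lin (u : Fin 4 → L) (hu : u 3 ≠ 0) : aeval (pl u) (lin u) = 0 := by
  rw [lin_eq]
  simp only [map_add, map_mul, aeval_X, pl_zero, pl_one, pl_two, algHom_C, algebraMap_eq]
  have h : (C (u 3) * C (-(u 3)⁻¹) : MvPolynomial (Fin 2) L) = -1 := by
    rw [← C_mul, mul_neg, mul_inv_cancel₀ hu, C_neg, C_1]
  linear_combination (C (u 0) + C (u 1) * X 0 + C (u 2) * X 1) * h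

theorem lin_dvd_X2 (u : Fin 4 → L) (hu : u 3 ≠ 0) :
    lin u ∣ X 2 - sec L (aeval (pl u) (X 2 : Po L)) := by
  rw [aeval_X, pl_two]
  simp only [map_add, map_mul, sec_X0, sec_X1, sec_C]
  rw [lin_eq]
  refine ⟨C (u 3)⁻¹, ?_⟩
  have h : (C (u 3) * C (u 3)⁻¹ : Po L) = 1 := by
    rw [← C_mul, mul_inv_cancel₀ hu, C_1]
  rw [C_neg]
  linear_combination (-X 2) * h

theorem lin_dvd (u : Fin 4 → L) (hu : u 3 ≠ 0) (q : Po L) :
    lin u ∣ q - sec L (aeval (pl u) q) := by
  induction q using MvPolynomial.induction_on with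
  | C a =>
    rw [algHom_C, algebraMap_eq, sec_C, sub_self]
    exact dvd_zero _
  | add p q hp hq =>
    rw [map_add, map_add, add_sub_add_comm]
    exact dvd_add hp hq
  | mul_X p i hp =>
    rw [map_mul, map_mul]
    have h1 : lin u ∣ X i - sec L (aeval (pl u) (X i : Po L)) := by
      fin_cases i
      · change lin u ∣ X 0 - sec L (aeval (pl u) (X 0 : Po L))
        rw [aeval_X, pl_zero, sec_X0, sub_self]
        exact dvd_zero _
      · change lin u ∣ X 1 - sec L (aeval (pl u) (X 1 : Po L))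
        rw [aeval_X, pl_one, sec_X1, sub_self]
        exact dvd_zero _
      · exact lin_dvd_X2 u hu
    have h2 : p * X i - sec L (aeval (pl u) p) * sec L (aeval (pl u) (X i : Po L)) =
        (p - sec L (aeval (pl u) p)) * X i +
          sec L (aeval (pl u) p) * (X i - sec L (aeval (pl u) (X i : Po L))) := by ring
    rw [h2]
    exact dvd_add (hp.mul_right _) (h1.mul_left _)

theorem aeval_eq_zero_iff (u : Fin 4 → L) (hu : u 3 ≠ 0) (q : Po L) :
    aeval (pl u) q = 0 ↔ lin u ∣ q := by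
  constructor
  · intro h
    have := lin_dvd u hu q
    rwa [h, map_zero, sub_zero] at this
  · rintro ⟨r, rfl⟩
    rw [map_mul, aeval_lin u hu, zero_mul]

end

theorem pf_ISO : T_ISO := by
  intro L _ Xt Zt u hI hu
  constructor
  · intro p
    refine ⟨aeval Xt (sec L p), ?_⟩
    rw [rho_eq, hI.aeval_left, aeval_sec]
  · intro q
    rw [rho_eq, aeval_eq_zero_iff u hu]
    constructor
    · intro h
      have h1 := map_dvd (aeval Xt : Po L →ₐ[L] Po L) h
      rwa [hI.aeval_right] at h1
    · intro h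
      have h1 := map_dvd (aeval Zt : Po L →ₐ[L] Po L) h
      rwa [hI.aeval_left] at h1

end Pool.Agent.H85.ZA
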