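import Pool.Agent.H8.ZA.Targets

/-!
# PER: all periodic surfaces lie in one surface
-/

set_option autoImplicit false

open MvPolynomial
open Pool.Agent.H12.ZD (pmap v NoInv DenseOrbit)

namespace Pool.Agent.H85.ZA

open Pool.Agent.H8.ZA

theorem semi_mul {k : Type} [CommRing k] (f : Tup k) (r : ℕ) (c : k) (P : Po k)
    (h : aeval (it f r) P = C c * P) (n : ℕ) : aeval (it f (r * n)) P = C (c ^ n) * P := by
  induction n with
  | zero =>
    rw [Nat.mul_zero, it_zero, pow_zero, C_1, one_mul]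
    exact aeval_X_left_apply P
  | succ n ih =>
    rw [Nat.mul_succ, it_add, aeval_comp, ih, map_mul, h, pow_succ, C_mul, ← mul_assoc]
    congr 2
    exact algHom_C _ _

theorem pf_PER (hPSF : T_PSF) (hPIT : T_PIT) : T_PER := by
  classical
  intro k _ _ _ f f' hI hN
  by_contra h
  push Not at h
  obtain ⟨F, hF1, hF2⟩ := exists_seq_of_forall_finset_exists
    (fun P : Po k => Irreducible P ∧ ∃ (r : ℕ) (c : k), 1 ≤ r ∧ aeval (it f r) P = C c * P)
    (fun P Q => ¬ Q ∣ P) (by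
      intro s hs
      obtain ⟨P, r, c, hP, hr, hc, hd⟩ := h (∏ x ∈ s, x)
        (Finset.prod_ne_zero_iff.mpr fun x hx => (hs x hx).1.ne_zero)
      exact ⟨P, ⟨hP, r, c, hr, hc⟩, fun x hx hdx => hd (hdx.trans (Finset.dvd_prod_of_mem _ hx))⟩)
  choose hirr r c hr hc using hF1
  have hr0 : ∀ n, r n ∣ ∏ i : Fin 4, r i → ∃ m, ∏ i : Fin 4, r i = r n * m := fun n h => h
  have hR : 1 ≤ ∏ i : Fin 4, r i := Finset.one_le_prod' fun i _ => hr i
  have hd : ∀ i : Fin 4, ∃ m, ∏ i : Fin 4, r i = r i * m := fun i =>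
    hr0 i (Finset.dvd_prod_of_mem (fun i : Fin 4 => r i) (Finset.mem_univ i))
  choose m hm using hd
  refine hPSF k (it f (∏ i : Fin 4, r i)) (it f' (∏ i : Fin 4, r i)) (fun i => F i)
    (fun i => c i ^ m i) (hI.it _) (fun i => hirr i) ?_ ?_ (hPIT k f f' _ hI hR hN)
  · intro i j hij hass
    rcases lt_or_gt_of_ne hij with h1 | h1
    · exact hF2 i j h1 hass.symm.dvd
    · exact hF2 j i h1 hass.dvd
  · intro i
    have h1 := semi_mul f (r i) (c i) (F i) (hc i) (m i)
    rw [← hm i] at h1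
    exact h1

end Pool.Agent.H85.ZA
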