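import Pool.Agent.H8.ZA.Targets

/-!
# SNF: the cokernel of an injective endomorphism of a free module over `L[τ]`
-/

set_option autoImplicit false

open Module

namespace Pool.Agent.H85.ZA

open Pool.Agent.H8.ZA

theorem snf_injective {L : Type} [Field L] {n : ℕ}
    (φ : (Fin n → Polynomial L) →ₗ[Polynomial L] (Fin n → Polynomial L))
    (h : LinearMap.det φ ≠ 0) : Function.Injective φ := by
  rw [← LinearMap.ker_eq_bot, LinearMap.ker_eq_bot']
  intro m hm
  rw [← LinearMap.det_toMatrix'] at h
  apply Matrix.eq_zero_of_mulVec_eq_zero h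
  rw [LinearMap.toMatrix'_mulVec]
  exact hm

theorem pf_SNF : T_SNF := by
  classical
  intro L _ n φ hφ
  have hinj := snf_injective φ hφ
  have hrank : finrank (Polynomial L) (LinearMap.range φ) =
      finrank (Polynomial L) (Fin n → Polynomial L) :=
    (LinearEquiv.ofInjective φ hinj).finrank_eq.symm
  let b : Basis (Fin n) (Polynomial L) (Fin n → Polynomial L) := Pi.basisFun _ _
  let a := Submodule.smithNormalFormCoeffs b hrank
  let b' := Submodule.smithNormalFormTopBasis b hrank
  let ab := Submodule.smithNormalFormBotBasis b hrank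
  have hab : ∀ i, (ab i : Fin n → Polynomial L) = a i • b' i :=
    Submodule.smithNormalFormBotBasis_def b hrank
  have ha : ∀ i, a i ≠ 0 := Submodule.smithNormalFormCoeffs_ne_zero b hrank
  -- the determinant
  have hdet : Associated (LinearMap.det φ) (∏ i, a i) := by
    have h1 := LinearMap.associated_det_comp_equiv (LinearMap.range φ).subtype
      (LinearEquiv.ofInjective φ hinj) (b'.equiv ab (Equiv.refl _))
    have h2 : (LinearMap.range φ).subtype ∘ₗ (LinearEquiv.ofInjective φ hinj : _ →ₗ[_] _) = φ := by
      apply LinearMap.ext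
      intro x
      rfl
    have h3 : (LinearMap.range φ).subtype ∘ₗ (b'.equiv ab (Equiv.refl _) : _ →ₗ[_] _) =
        Matrix.toLin b' b' (Matrix.diagonal a) := by
      refine b'.ext fun i => ?_
      rw [Matrix.toLin_self, LinearMap.comp_apply, LinearEquiv.coe_coe, b'.equiv_apply,
        Submodule.subtype_apply, Equiv.refl_apply, hab,
        Finset.sum_eq_single i (fun j _ hj => by rw [Matrix.diagonal_apply_ne _ hj, zero_smul])
          (fun h => absurd (Finset.mem_univ i) h), Matrix.diagonal_apply_eq]
    rw [h2, h3, LinearMap.det_toLin, Matrix.det_diagonal] at h1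
    exact h1
  have hfin : ∀ i, Module.Finite L (Polynomial L ⧸ Ideal.span ({a i} : Set (Polynomial L))) :=
    fun i => PowerBasis.finite (AdjoinRoot.powerBasis (ha i))
  have hfin' : ∀ i, Module.Finite L (Polynomial L ⧸
      Ideal.span ({Submodule.smithNormalFormCoeffs b hrank i} : Set (Polynomial L))) := hfin
  rw [Submodule.finrank_quotient_eq_sum L b hrank,
    Polynomial.natDegree_eq_of_degree_eq (Polynomial.degree_eq_degree_of_associated hdet),
    Polynomial.natDegree_prod _ _ fun i _ => ha i]
  refine Finset.sum_congr rfl fun i _ => ?_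
  exact (AdjoinRoot.powerBasis (ha i)).finrank

end Pool.Agent.H85.ZA
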